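import Pool.Agent.Helper62.VX.Stm
import Pool.Agent.Helper62.BW.Data
import Pool.Agent.Helper82.CX.Data

/-! # Packages V3 (V_Data) and V7 (V_DataC) -/

set_option autoImplicit false

open Polynomial Matrix Finset

namespace Pool.Agent.Helper38.VX

open Pool.Agent.Helper62.BM Pool.Agent.Helper62.BW Pool.Agent.Helper62.BX Pool.Agent.Helper62.CX
  Pool.Agent.Helper62.VX Pool.Agent.Helper82.CX

theorem v_Data (hHor : W_Hor) (hQ : W_QDet) (hQe : W_Qe) (hLoc : V_Loc) (hRk : V_Rk) :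
    V_Data := by
  intro A _ _ _ g hg F hF t₀ x₀ f₁ hN
  obtain ⟨w, P, S, hw, hR⟩ := hLoc A g hg F hF t₀ x₀ f₁ hN
  obtain ⟨ν, hν, hRk'⟩ := hRk A g hg F hF t₀ x₀ f₁ hN w P S hR
  obtain ⟨q1, q2, δ, δ', hδ, hδ', q3, q4⟩ := hQ A g hg F hF.1 hF.2.1
  refine ⟨⟨Mg P S, Q2F (2 * g) F, 2 * w, t₀, fun i => x₀ ^ (i : ℕ), 2 * f₁.eval x₀,
    (ν : A) * w.eval t₀, δ, δ'⟩, P, S, ⟨hF, hR, rfl, rfl⟩, q1, q2, q3, q4, hδ, hδ', ?_, ?_, ?_, ?_,
    ?_, ?_⟩
  · show (2 * w).eval t₀ ≠ 0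
    rw [eval_mul, eval_ofNat]
    exact mul_ne_zero two_ne_zero hw
  · exact mul_ne_zero two_ne_zero hN.2.2
  · exact mul_ne_zero (Nat.cast_ne_zero.2 hν.ne') hw
  · intro h
    have h1 := congrFun h ⟨0, by omega⟩
    simp at h1
  · exact hHor A two_ne_zero g hg F hF _ P S hR
  · intro i j
    show 2 * f₁.eval x₀ * (Mg P S i j).eval t₀ = (ν : A) * w.eval t₀ *
      (∑ l : Fin (2 * g), (Q2F (2 * g) F i l).eval t₀ * x₀ ^ (l : ℕ)) * x₀ ^ (j : ℕ)
    rw [hRk' i j, hQe A g hg F hF.2.1 t₀ x₀ f₁ hN.1]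

theorem v_DataC (hLoc : V_LocC) (hRk : V_RkC) : V_DataC := by
  intro A _ _ _ m r na nb N hr hrm hN2 hN a b hG t₀ x₀ a₁ b₁ hNd
  obtain ⟨w, P, S, hw, hR⟩ := hLoc A m r na nb N hr hrm hN a b hG t₀ x₀ a₁ b₁ hNd
  obtain ⟨ν, hν, hRk'⟩ := hRk A m r na nb N hr hrm hN a b hG t₀ x₀ a₁ b₁ hNd w P S hR
  obtain ⟨ha1, ha2⟩ := factor hG.1 hG.2.2.1 hNd.1
  obtain ⟨hb1, hb2⟩ := factor hG.2.1 hG.2.2.2.1 hNd.2.1
  obtain ⟨u1, u2⟩ := der_mul a₁ b₁ ha1 hb1
  obtain ⟨v1, v2⟩ := der_mul b₁ a₁ hb1 ha1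
  obtain ⟨U, hU⟩ : ∃ U : A[X], U = ((m - r : ℕ) : A[X]) * derivative a₁ * b₁ +
    (r : A[X]) * a₁ * derivative b₁ := ⟨_, rfl⟩
  have hU' : U = ((m - r : ℕ) : A[X]) * (derivative a₁ * b₁) +
      (r : A[X]) * (derivative b₁ * a₁) := by rw [hU]; ring
  have hab : b₁.natDegree + a₁.natDegree - 1 = a₁.natDegree + b₁.natDegree - 1 := by omega
  rw [hab] at v1 v2
  have hUd : U.natDegree ≤ a₁.natDegree + b₁.natDegree - 1 := by
    rw [hU']
    refine natDegree_add_le_of_degree_le ?_ ?_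
    · exact (natDegree_mul_le.trans (by rw [natDegree_natCast, zero_add])).trans u1
    · exact (natDegree_mul_le.trans (by rw [natDegree_natCast, zero_add])).trans v1
  have hUc : U.coeff (a₁.natDegree + b₁.natDegree - 1) =
      (((m - r) * a₁.natDegree + r * b₁.natDegree : ℕ) : A) := by
    rw [hU', coeff_add, coeff_natCast_mul, coeff_natCast_mul, u2, v2]
    push_cast
    ring
  have hUc0 : U.coeff (a₁.natDegree + b₁.natDegree - 1) ≠ 0 := by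
    rw [hUc, Nat.cast_ne_zero]
    have h1 : 0 < a₁.natDegree + b₁.natDegree := by omega
    have h2 : 0 < m - r := by omega
    rcases Nat.eq_zero_or_pos a₁.natDegree with h3 | h3
    · have h4 : 0 < b₁.natDegree := by omega
      have := Nat.mul_pos hr h4
      omega
    · have := Nat.mul_pos h2 h3
      omega
  obtain ⟨V, hV⟩ : ∃ V : A[X], V = (X - Polynomial.C x₀) * U := ⟨_, rfl⟩
  have hVd : V.natDegree < N := by
    have h1 : V.natDegree ≤ 1 + U.natDegree := by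
      rw [hV]
      refine natDegree_mul_le.trans ?_
      rw [natDegree_X_sub_C]
    omega
  have hV0 : V.eval x₀ = 0 := by
    rw [hV, eval_mul, eval_sub, eval_X, eval_C, sub_self, zero_mul]
  have hVc : V.coeff (N - 1) ≠ 0 := by
    have h1 : N - 1 = (a₁.natDegree + b₁.natDegree - 1) + 1 := by omega
    have h2 : U.coeff (a₁.natDegree + b₁.natDegree - 1 + 1) = 0 :=
      coeff_eq_zero_of_natDegree_lt (by omega)
    rw [h1, hV, sub_mul, coeff_sub, coeff_X_mul, coeff_C_mul, h2, mul_zero, sub_zero]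
    exact hUc0
  refine ⟨⟨Mc P S, w, t₀, fun i => x₀ ^ (i : ℕ), fun i => V.coeff i,
    (m : A) ^ 2 * (a₁ * b₁).eval x₀, (ν : A) * w.eval t₀⟩, P, S, ⟨hG, hN, hR, rfl⟩, hw, ?_, ?_, ?_, ?_, ?_, ?_⟩
  · exact mul_ne_zero (pow_ne_zero 2 (Nat.cast_ne_zero.2 (by omega))) hNd.2.2.2
  · exact mul_ne_zero (Nat.cast_ne_zero.2 hν.ne') hw
  · intro h
    have h1 := congrFun h ⟨0, by omega⟩
    simp at h1
  · intro h
    have h1 := congrFun h ⟨N - 1, by omega⟩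
    exact hVc h1
  · show ∑ i : Fin N, x₀ ^ (i : ℕ) * V.coeff (i : ℕ) = 0
    rw [eval_eq_sum_range' hVd, ← Fin.sum_univ_eq_sum_range (fun i => V.coeff i * x₀ ^ i)] at hV0
    rw [← hV0]
    exact Finset.sum_congr rfl fun i _ => mul_comm _ _
  · intro i j
    have h1 := hRk' i j
    rw [← hU, ← hV] at h1
    exact h1

end Pool.Agent.Helper38.VX
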